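import Pool.Agent.helper54.UG.Spec

set_option autoImplicit false

namespace Pool.Agent.UG

open Matrix Pool.Agent.H48SL

/-- `exp X = U X + 1` with a unit `U` which commutes with `X` -/
theorem EXJ_fac {n : ℕ} {X : MQ n} (hX : IsNilpotent X) :
    ∃ U U' : MQ n, U' * U = 1 ∧ U * U' = 1 ∧ IsNilpotent.exp X = U * X + 1 ∧ U * X = X * U := by
  obtain ⟨k, hk⟩ := hX
  have hk2 : X ^ (k + 2) = 0 := by rw [pow_add, hk, zero_mul]
  set V : MQ n := ∑ i ∈ Finset.range k, (((i + 2).factorial : ℚ)⁻¹) • X ^ i with hV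
  have hVX : Commute V X := by
    rw [hV]
    exact Commute.sum_left _ _ _ fun i _ => ((Commute.refl X).pow_left i).smul_left _
  have hnil : IsNilpotent (V * X) := hVX.isNilpotent_mul_left ⟨k, hk⟩
  have hunit : IsUnit (V * X + 1) := hnil.isUnit_add_one
  obtain ⟨u, hu⟩ := hunit
  have hexp : IsNilpotent.exp X = (V * X + 1) * X + 1 := by
    rw [IsNilpotent.exp_eq_sum hk2, Finset.sum_range_succ', Finset.sum_range_succ', hV]
    simp only [Nat.factorial_zero, Nat.cast_one, inv_one, pow_zero, one_smul, zero_add,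
      Nat.factorial_one, pow_one, Finset.sum_mul, add_mul, one_mul, smul_mul_assoc, ← pow_succ]
  refine ⟨V * X + 1, ((u⁻¹ : (MQ n)ˣ) : MQ n), ?_, ?_, hexp, ?_⟩
  · rw [← hu, Units.inv_mul]
  · rw [← hu, Units.mul_inv]
  · rw [add_mul, mul_add, one_mul, mul_one, hVX.eq, mul_assoc, hVX.eq]

theorem EXJ : EXJ_stmt := by
  intro n X hX
  obtain ⟨U, U', h1, h2, h3, h4⟩ := EXJ_fac hX
  refine ⟨?_, ?_, ?_, ?_, ?_, ?_, ?_, IsNilpotent.isNilpotent_exp_sub_one hX⟩
  · intro j
    induction j with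
    | zero => rw [pow_zero, Nat.cast_zero, zero_smul, IsNilpotent.exp_zero]
    | succ j ih =>
      have hc : Commute ((j : ℚ) • X) X := (Commute.refl X).smul_left _
      have hn : IsNilpotent ((j : ℚ) • X) := hX.smul _
      rw [pow_succ, ih, ← IsNilpotent.exp_add_of_commute hc hn hX, Nat.cast_succ, add_smul, one_smul]
  · intro w hw
    have h5 : U *ᵥ (X *ᵥ w) = 0 := by
      have h6 : (U * X + 1) *ᵥ w = w := by rw [← h3]; exact hw
      rw [add_mulVec, one_mulVec, ← mulVec_mulVec] at h6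
      simpa using h6
    have h7 : (U' * U) *ᵥ (X *ᵥ w) = 0 := by
      rw [← mulVec_mulVec, h5, mulVec_zero]
    rwa [h1, one_mulVec] at h7
  · intro w hw
    have h5 : (w ᵥ* X) ᵥ* U = 0 := by
      have h6 : w ᵥ* (X * U + 1) = w := by rw [← h4, ← h3]; exact hw
      rw [vecMul_add, vecMul_one, ← vecMul_vecMul] at h6
      simpa using h6
    have h7 : (w ᵥ* X) ᵥ* (U * U') = 0 := by
      rw [← vecMul_vecMul, h5, zero_vecMul]
    rwa [h2, vecMul_one] at h7
  · intro he
    have h5 : U * X = 0 := by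
      rw [h3] at he
      simpa using he
    have h6 : U' * U * X = 0 := by rw [mul_assoc, h5, mul_zero]
    rwa [h1, one_mul] at h6
  · intro w hw
    rw [h3, add_mulVec, one_mulVec, ← mulVec_mulVec, hw, mulVec_zero, zero_add]
  · intro w hw
    rw [h3, h4, vecMul_add, vecMul_one, ← vecMul_vecMul, hw, zero_vecMul, zero_add]
  · obtain ⟨k, hk⟩ := hX
    have hfun : (fun t : ℚ => IsNilpotent.exp (t • X)) =
        fun t : ℚ => ∑ i ∈ Finset.range k,
          (Polynomial.C ((i.factorial : ℚ)⁻¹) * Polynomial.X ^ i : Polynomial ℚ).eval t • X ^ i := by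
      funext t
      have hk' : (t • X) ^ k = 0 := by rw [smul_pow, hk, smul_zero]
      rw [IsNilpotent.exp_eq_sum hk']
      refine Finset.sum_congr rfl fun i _ => ?_
      rw [smul_pow, smul_smul]
      simp only [Polynomial.eval_mul, Polynomial.eval_C, Polynomial.eval_pow, Polynomial.eval_X]
    rw [hfun]
    exact PC.sum _ _ fun i _ => (PC.const (X ^ i)).smul _

end Pool.Agent.UG
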